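import Pool.Agent.Helper15.LP.Defs

set_option autoImplicit false

open Finset
open scoped Classical
open Pool.Agent.Helper15.LR

namespace Pool.Agent.Helper15.LP

/-- the binomial comparison -/
theorem CHAOS_choose (p k : ℕ) (hk : k ≤ p) :
    ((2 * p).choose (2 * k) : ℝ) ≤ (2 * p : ℝ) ^ k * (p.choose k : ℝ) := by
  induction k with
  | zero => simp
  | succ k ih =>
    have hk' : k < p := hk
    have ih' := ih hk'.le
    have e1 : ((2 * p).choose (2 * k + 1) : ℝ) * (2 * k + 1) =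
        ((2 * p).choose (2 * k) : ℝ) * (2 * p - 2 * k) := by
      have h := Nat.choose_succ_right_eq (2 * p) (2 * k)
      have h2 : ((2 * p - 2 * k : ℕ) : ℝ) = 2 * p - 2 * k := by
        rw [Nat.cast_sub (by omega)]; push_cast; ring
      have h3 : (((2 * p).choose (2 * k + 1) * (2 * k + 1) : ℕ) : ℝ) =
          (((2 * p).choose (2 * k) * (2 * p - 2 * k) : ℕ) : ℝ) := by rw [h]
      rw [Nat.cast_mul, Nat.cast_mul, h2] at h3
      push_cast at h3
      linarith
    have e2 : ((2 * p).choose (2 * k + 2) : ℝ) * (2 * k + 2) =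
        ((2 * p).choose (2 * k + 1) : ℝ) * (2 * p - 2 * k - 1) := by
      have h := Nat.choose_succ_right_eq (2 * p) (2 * k + 1)
      have h2 : ((2 * p - (2 * k + 1) : ℕ) : ℝ) = 2 * p - 2 * k - 1 := by
        rw [Nat.cast_sub (by omega)]; push_cast; ring
      have h3 : (((2 * p).choose (2 * k + 1 + 1) * (2 * k + 1 + 1) : ℕ) : ℝ) =
          (((2 * p).choose (2 * k + 1) * (2 * p - (2 * k + 1)) : ℕ) : ℝ) := by rw [h]
      rw [Nat.cast_mul, Nat.cast_mul, h2] at h3
      push_cast at h3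
      have h4 : 2 * k + 1 + 1 = 2 * k + 2 := by ring
      rw [h4] at h3
      linarith
    have e3 : (p.choose (k + 1) : ℝ) * (k + 1) = (p.choose k : ℝ) * (p - k) := by
      have h := Nat.choose_succ_right_eq p k
      have h2 : ((p - k : ℕ) : ℝ) = p - k := by
        rw [Nat.cast_sub (by omega)]
      have h3 : ((p.choose (k + 1) * (k + 1) : ℕ) : ℝ) =
          ((p.choose k * (p - k) : ℕ) : ℝ) := by rw [h]
      rw [Nat.cast_mul, Nat.cast_mul, h2] at h3
      push_cast at h3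
      linarith
    have hkp : (k : ℝ) + 1 ≤ p := by exact_mod_cast hk'
    have hk0 : (0 : ℝ) ≤ k := Nat.cast_nonneg k
    have hA : ((2 * p).choose (2 * (k + 1)) : ℝ) * ((2 * k + 1) * (2 * k + 2)) =
        ((2 * p).choose (2 * k) : ℝ) * ((2 * p - 2 * k) * (2 * p - 2 * k - 1)) := by
      have : 2 * (k + 1) = 2 * k + 2 := by ring
      rw [this]
      calc ((2 * p).choose (2 * k + 2) : ℝ) * ((2 * k + 1) * (2 * k + 2))
          = (((2 * p).choose (2 * k + 2) : ℝ) * (2 * k + 2)) * (2 * k + 1) := by ring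
        _ = (((2 * p).choose (2 * k + 1) : ℝ) * (2 * p - 2 * k - 1)) * (2 * k + 1) := by rw [e2]
        _ = (((2 * p).choose (2 * k + 1) : ℝ) * (2 * k + 1)) * (2 * p - 2 * k - 1) := by ring
        _ = _ := by rw [e1]; ring
    have hpos : (0 : ℝ) < (2 * k + 1) * (2 * k + 2) := by positivity
    refine le_of_mul_le_mul_right ?_ hpos
    rw [hA]
    have h5 : (p.choose k : ℝ) * (2 * p - 2 * k) = (p.choose (k + 1) : ℝ) * (2 * k + 2) := by
      linarith
    have h6 : (0 : ℝ) ≤ (2 * p - 2 * k) * (2 * p - 2 * k - 1) :=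
      mul_nonneg (by linarith) (by linarith)
    have hc0 : (0 : ℝ) ≤ (p.choose (k + 1) : ℝ) := Nat.cast_nonneg _
    calc ((2 * p).choose (2 * k) : ℝ) * ((2 * p - 2 * k) * (2 * p - 2 * k - 1))
        ≤ ((2 * p : ℝ) ^ k * (p.choose k : ℝ)) * ((2 * p - 2 * k) * (2 * p - 2 * k - 1)) :=
          mul_le_mul_of_nonneg_right ih' h6
      _ = (2 * p : ℝ) ^ k * ((p.choose k : ℝ) * (2 * p - 2 * k)) * (2 * p - 2 * k - 1) := by ring
      _ = (2 * p : ℝ) ^ k * ((p.choose (k + 1) : ℝ) * (2 * k + 2)) * (2 * p - 2 * k - 1) := by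
          rw [h5]
      _ ≤ (2 * p : ℝ) ^ k * ((p.choose (k + 1) : ℝ) * (2 * k + 2)) * (2 * p * (2 * k + 1)) := by
          refine mul_le_mul_of_nonneg_left ?_ (by positivity)
          nlinarith
      _ = _ := by ring

theorem CHAOS_even (f : ℕ → ℝ) (p : ℕ) :
    ∑ j ∈ range (2 * p + 1), (if Even j then f j else 0) = ∑ k ∈ range (p + 1), f (2 * k) := by
  induction p with
  | zero => simp
  | succ p ih =>
    have : 2 * (p + 1) + 1 = (2 * p + 1) + 1 + 1 := by ring
    rw [this, sum_range_succ, sum_range_succ, ih, sum_range_succ _ (p + 1)]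
    have h1 : ¬ Even (2 * p + 1) := by
      rw [Nat.not_even_iff_odd]; exact odd_two_mul_add_one p
    have h2 : Even (2 * p + 1 + 1) := ⟨p + 1, by ring⟩
    rw [if_neg h1, if_pos h2]
    have : 2 * p + 1 + 1 = 2 * (p + 1) := by ring
    rw [this]
    ring

/-- two-point inequality -/
theorem CHAOS_two (a b : ℝ) (p : ℕ) :
    (a + b) ^ (2 * p) + (a - b) ^ (2 * p) ≤ 2 * (a ^ 2 + (2 * p) * b ^ 2) ^ p := by
  have h1 : (a + b) ^ (2 * p) + (a - b) ^ (2 * p) =
      2 * ∑ k ∈ range (p + 1), b ^ (2 * k) * a ^ (2 * p - 2 * k) * ((2 * p).choose (2 * k) : ℝ) := by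
    rw [← CHAOS_even (fun j => b ^ j * a ^ (2 * p - j) * ((2 * p).choose j : ℝ)) p, add_comm a b,
      sub_eq_neg_add, add_pow, add_pow, ← sum_add_distrib, mul_sum]
    refine sum_congr rfl fun j _ => ?_
    by_cases hj : Even j
    · rw [if_pos hj, hj.neg_pow]; ring
    · rw [if_neg hj, (Nat.not_even_iff_odd.1 hj).neg_pow]; ring
  rw [h1, add_comm (a ^ 2), add_pow]
  refine mul_le_mul_of_nonneg_left ?_ (by norm_num)
  refine sum_le_sum fun k hk => ?_
  have hkp : k ≤ p := by rw [mem_range] at hk; omega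
  have h2 := CHAOS_choose p k hkp
  have h3 : a ^ (2 * p - 2 * k) = (a ^ 2) ^ (p - k) := by
    rw [← pow_mul]; congr 1; omega
  have h4 : b ^ (2 * k) = (b ^ 2) ^ k := by rw [← pow_mul]
  rw [h3, h4, mul_pow]
  calc (b ^ 2) ^ k * (a ^ 2) ^ (p - k) * ((2 * p).choose (2 * k) : ℝ)
      ≤ (b ^ 2) ^ k * (a ^ 2) ^ (p - k) * ((2 * p : ℝ) ^ k * (p.choose k : ℝ)) :=
        mul_le_mul_of_nonneg_left h2 (by positivity)
    _ = _ := by ring

/-- Minkowski for sums of `p`-th powers -/
theorem CHAOS_mink {X : Type} [Fintype X] (f g : X → ℝ) (N A B : ℝ) (p : ℕ) (hp : 1 ≤ p)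
    (hN : 0 ≤ N) (hf : ∀ x, 0 ≤ f x) (hg : ∀ x, 0 ≤ g x) (hA : 0 ≤ A) (hB : 0 ≤ B)
    (h1 : ∑ x, f x ^ p ≤ N * A ^ p) (h2 : ∑ x, g x ^ p ≤ N * B ^ p) :
    ∑ x, (f x + g x) ^ p ≤ N * (A + B) ^ p := by
  have hp0 : (0 : ℝ) < p := by exact_mod_cast hp
  have hp1 : (1 : ℝ) ≤ p := by exact_mod_cast hp
  have h := Real.Lp_add_le_of_nonneg (s := (univ : Finset X)) (f := f) (g := g) hp1
    (fun i _ => hf i) (fun i _ => hg i)
  simp only [Real.rpow_natCast] at h
  have key : ∀ (u : X → ℝ) (C : ℝ), (∀ x, 0 ≤ u x) → 0 ≤ C → ∑ x, u x ^ p ≤ N * C ^ p →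
      (∑ x, u x ^ p) ^ (1 / (p : ℝ)) ≤ N ^ (1 / (p : ℝ)) * C := by
    intro u C hu hC hle
    have h3 : (∑ x, u x ^ p) ^ (1 / (p : ℝ)) ≤ (N * C ^ p) ^ (1 / (p : ℝ)) :=
      Real.rpow_le_rpow (sum_nonneg fun x _ => pow_nonneg (hu x) p) hle (by positivity)
    rw [Real.mul_rpow hN (by positivity), ← Real.rpow_natCast, ← Real.rpow_mul hC,
      mul_one_div_cancel hp0.ne', Real.rpow_one] at h3
    exact h3
  have h4 := h.trans (add_le_add (key f A hf hA h1) (key g B hg hB h2))
  rw [← mul_add] at h4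
  have h5 : 0 ≤ ∑ x, (f x + g x) ^ p :=
    sum_nonneg fun x _ => pow_nonneg (add_nonneg (hf x) (hg x)) p
  have h6 := pow_le_pow_left₀ (Real.rpow_nonneg h5 _) h4 p
  rw [mul_pow, ← Real.rpow_natCast, ← Real.rpow_mul h5, one_div, inv_mul_cancel₀ hp0.ne',
    Real.rpow_one, ← Real.rpow_natCast (N ^ _), ← Real.rpow_mul hN, inv_mul_cancel₀ hp0.ne',
    Real.rpow_one] at h6
  exact h6

/-- flipping one coordinate -/
noncomputable def CHAOS_flip {V : Type} (v : V) (x : V → Bool) : V → Bool :=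
  Function.update x v (!(x v))

theorem CHAOS_flip_sum {V : Type} [Fintype V] (v : V) (F : (V → Bool) → ℝ) :
    ∑ x, F (CHAOS_flip v x) = ∑ x, F x := by
  have hinv : Function.Involutive (CHAOS_flip v) := by
    intro x
    unfold CHAOS_flip
    rw [Function.update_self, Function.update_idem, Bool.not_not, Function.update_eq_self]
  exact Equiv.sum_comp hinv.toPerm F

/-- the step of Bonami's lemma -/
theorem CHAOS_step {V : Type} [Fintype V] (v : V) (f0 f1 : (V → Bool) → ℝ) (p : ℕ) (hp : 1 ≤ p)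
    (N A B : ℝ) (hN : 0 ≤ N) (hA : 0 ≤ A) (hB : 0 ≤ B)
    (hf0 : ∀ x, f0 (CHAOS_flip v x) = f0 x) (hf1 : ∀ x, f1 (CHAOS_flip v x) = f1 x)
    (h0 : ∑ x, f0 x ^ (2 * p) ≤ N * A ^ p) (h1 : ∑ x, f1 x ^ (2 * p) ≤ N * B ^ p) :
    ∑ x, (f0 x + sgn (x v) * f1 x) ^ (2 * p) ≤ N * (A + (2 * p) * B) ^ p := by
  have e1 : 2 * ∑ x, (f0 x + sgn (x v) * f1 x) ^ (2 * p) =
      ∑ x, ((f0 x + f1 x) ^ (2 * p) + (f0 x - f1 x) ^ (2 * p)) := by
    have := CHAOS_flip_sum v (fun x => (f0 x + sgn (x v) * f1 x) ^ (2 * p))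
    rw [two_mul]
    nth_rewrite 2 [← this]
    rw [← sum_add_distrib]
    refine sum_congr rfl fun x _ => ?_
    rw [hf0, hf1]
    have h2 : CHAOS_flip v x v = !(x v) := by unfold CHAOS_flip; rw [Function.update_self]
    rw [h2]
    cases hx : x v
    · simp only [sgn, Bool.not_false, if_true, Bool.false_eq_true, if_false]
      ring
    · simp only [sgn, Bool.not_true, if_true, Bool.false_eq_true, if_false]
      ring
  have e2 : ∑ x, ((f0 x + f1 x) ^ (2 * p) + (f0 x - f1 x) ^ (2 * p)) ≤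
      2 * ∑ x, (f0 x ^ 2 + (2 * p) * f1 x ^ 2) ^ p := by
    rw [mul_sum]
    exact sum_le_sum fun x _ => CHAOS_two (f0 x) (f1 x) p
  have e3 : ∑ x, (f0 x ^ 2 + (2 * p) * f1 x ^ 2) ^ p ≤ N * (A + (2 * p) * B) ^ p := by
    refine CHAOS_mink (fun x => f0 x ^ 2) (fun x => (2 * p) * f1 x ^ 2) N A ((2 * p) * B) p hp hN
      (fun x => sq_nonneg _) (fun x => by positivity) hA (by positivity) ?_ ?_
    · simp only [← pow_mul]
      exact h0
    · simp only [mul_pow (2 * (p : ℝ)), ← pow_mul]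
      rw [← mul_sum]
      calc (2 * (p : ℝ)) ^ p * ∑ x, f1 x ^ (2 * p) ≤ (2 * (p : ℝ)) ^ p * (N * B ^ p) :=
            mul_le_mul_of_nonneg_left h1 (by positivity)
        _ = _ := by ring
  linarith

theorem CHAOS_flip_ne {V : Type} (v w : V) (x : V → Bool) (h : w ≠ v) :
    CHAOS_flip v x w = x w := by
  unfold CHAOS_flip
  rw [Function.update_of_ne h]

/-- linear forms -/
theorem CHAOS_lin {V : Type} [Fintype V] (c : V → ℝ) (p : ℕ) (hp : 1 ≤ p) (S : Finset V) :
    ∑ x : V → Bool, (∑ v ∈ S, c v * sgn (x v)) ^ (2 * p) ≤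
      2 ^ Fintype.card V * ((2 * p) * ∑ v ∈ S, c v ^ 2) ^ p := by
  induction S using Finset.induction_on with
  | empty =>
    simp only [sum_empty, mul_zero]
    rw [zero_pow (by omega : 2 * p ≠ 0), zero_pow (by omega : p ≠ 0)]
    simp
  | insert a S ha ih =>
    have h := CHAOS_step a (fun x => ∑ v ∈ S, c v * sgn (x v)) (fun _ => c a) p hp
      (2 ^ Fintype.card V) ((2 * p) * ∑ v ∈ S, c v ^ 2) (c a ^ 2) (by positivity)
      (by positivity) (by positivity) (fun x => ?_) (fun x => rfl) ih ?_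
    · have e : ∀ x : V → Bool, ∑ v ∈ insert a S, c v * sgn (x v) =
          ∑ v ∈ S, c v * sgn (x v) + sgn (x a) * c a := by
        intro x
        rw [sum_insert ha]; ring
      simp only [e]
      rw [sum_insert ha]
      refine h.trans (le_of_eq ?_)
      ring
    · refine sum_congr rfl fun v hv => ?_
      rw [CHAOS_flip_ne a v x (fun h => ha (h ▸ hv))]
    · rw [sum_const, card_univ, nsmul_eq_mul, Fintype.card_fun, Fintype.card_bool, pow_mul]
      push_cast
      exact le_rfl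

/-- quadratic forms -/
theorem CHAOS_quad {V : Type} [Fintype V] (C : V → V → ℝ) (hC : ∀ v, C v v = 0) (p : ℕ)
    (hp : 1 ≤ p) (S : Finset V) :
    ∑ x : V → Bool, (∑ v ∈ S, ∑ w ∈ S, C v w * sgn (x v) * sgn (x w)) ^ (2 * p) ≤
      2 ^ Fintype.card V * ((2 * p) ^ 2 * (2 * ∑ v ∈ S, ∑ w ∈ S, C v w ^ 2)) ^ p := by
  induction S using Finset.induction_on with
  | empty =>
    simp only [sum_empty, mul_zero]
    rw [zero_pow (by omega : 2 * p ≠ 0), zero_pow (by omega : p ≠ 0)]
    simp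
  | insert a S ha ih =>
    have hsum0 : (0 : ℝ) ≤ ∑ v ∈ S, ∑ w ∈ S, C v w ^ 2 :=
      sum_nonneg fun v _ => sum_nonneg fun w _ => sq_nonneg _
    have h := CHAOS_step a (fun x => ∑ v ∈ S, ∑ w ∈ S, C v w * sgn (x v) * sgn (x w))
      (fun x => ∑ w ∈ S, (C a w + C w a) * sgn (x w)) p hp
      (2 ^ Fintype.card V) ((2 * p) ^ 2 * (2 * ∑ v ∈ S, ∑ w ∈ S, C v w ^ 2))
      ((2 * p) * ∑ w ∈ S, (C a w + C w a) ^ 2) (by positivity)
      (by positivity) (by positivity) (fun x => ?_) (fun x => ?_) ih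
      (CHAOS_lin (fun w => C a w + C w a) p hp S)
    · have e : ∀ x : V → Bool,
          ∑ v ∈ insert a S, ∑ w ∈ insert a S, C v w * sgn (x v) * sgn (x w) =
          ∑ v ∈ S, ∑ w ∈ S, C v w * sgn (x v) * sgn (x w) +
            sgn (x a) * ∑ w ∈ S, (C a w + C w a) * sgn (x w) := by
        intro x
        rw [sum_insert ha, sum_insert ha, hC]
        simp only [sum_insert ha]
        rw [sum_add_distrib, mul_sum]
        have : ∑ w ∈ S, sgn (x a) * ((C a w + C w a) * sgn (x w)) =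
            ∑ w ∈ S, C a w * sgn (x a) * sgn (x w) + ∑ w ∈ S, C w a * sgn (x w) * sgn (x a) := by
          rw [← sum_add_distrib]
          exact sum_congr rfl fun w _ => by ring
        rw [this]
        ring
      simp only [e]
      refine h.trans ?_
      refine mul_le_mul_of_nonneg_left ?_ (by positivity)
      refine pow_le_pow_left₀ (by positivity) ?_ p
      have e2 : ∑ v ∈ insert a S, ∑ w ∈ insert a S, C v w ^ 2 =
          ∑ v ∈ S, ∑ w ∈ S, C v w ^ 2 + ∑ w ∈ S, (C a w ^ 2 + C w a ^ 2) := by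
        rw [sum_insert ha, sum_insert ha, hC]
        simp only [sum_insert ha]
        rw [sum_add_distrib, sum_add_distrib]
        ring
      rw [e2]
      have e3 : ∑ w ∈ S, (C a w + C w a) ^ 2 ≤ 2 * ∑ w ∈ S, (C a w ^ 2 + C w a ^ 2) := by
        rw [mul_sum]
        refine sum_le_sum fun w _ => ?_
        nlinarith [sq_nonneg (C a w - C w a)]
      have hp2 : (0 : ℝ) ≤ (2 * (p : ℝ)) ^ 2 := by positivity
      nlinarith [mul_le_mul_of_nonneg_left e3 hp2]
    · refine sum_congr rfl fun v hv => sum_congr rfl fun w hw => ?_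
      rw [CHAOS_flip_ne a v x (fun h => ha (h ▸ hv)), CHAOS_flip_ne a w x (fun h => ha (h ▸ hw))]
    · refine sum_congr rfl fun v hv => ?_
      rw [CHAOS_flip_ne a v x (fun h => ha (h ▸ hv))]

theorem lp_CHAOS : Chaos_stmt := by
  intro V _ C F p hp hF hC hsum
  have hp0 : (0 : ℝ) < p := by exact_mod_cast hp
  set Q : (V → Bool) → ℝ := fun x => ∑ v, ∑ w, C v w * sgn (x v) * sgn (x w) with hQ
  have hmom : ∑ x : V → Bool, Q x ^ (2 * p) ≤
      2 ^ Fintype.card V * ((2 * p) ^ 2 * (2 * F ^ 2)) ^ p := by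
    refine (CHAOS_quad C hC p hp univ).trans ?_
    refine mul_le_mul_of_nonneg_left ?_ (by positivity)
    refine pow_le_pow_left₀ ?_ ?_ p
    · have : (0 : ℝ) ≤ ∑ v, ∑ w, C v w ^ 2 :=
        sum_nonneg fun v _ => sum_nonneg fun w _ => sq_nonneg _
      positivity
    · refine mul_le_mul_of_nonneg_left ?_ (by positivity)
      linarith
  have hPP : PP (un : V → Bool → ℝ) {x | 10 * p * F < |Q x|} =
      (∑ x : V → Bool, if 10 * p * F < |Q x| then 1 else 0) / 2 ^ Fintype.card V := by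
    unfold PP un
    rw [sum_div]
    refine sum_congr rfl fun x _ => ?_
    simp only [Set.mem_ofPred_eq, prod_const, card_univ]
    split_ifs
    · rw [one_div, one_div, inv_pow]
    · rw [zero_div]
  have hgoal : PP (un : V → Bool → ℝ) {x | 10 * p * F < |Q x|} ≤ Real.exp (-(2 * p)) := by
    rw [hPP, div_le_iff₀ (by positivity)]
    rcases hF.eq_or_lt with hF0 | hF0
    · -- F = 0
      have hz : ∀ x, ¬ (10 * p * F < |Q x|) := by
        intro x hx
        have hC0 : ∀ v w, C v w = 0 := by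
          intro v w
          have h1 : C v w ^ 2 ≤ ∑ v, ∑ w, C v w ^ 2 := by
            calc C v w ^ 2 ≤ ∑ w, C v w ^ 2 :=
                  single_le_sum (f := fun w => C v w ^ 2) (fun _ _ => sq_nonneg _) (mem_univ w)
              _ ≤ _ := single_le_sum (f := fun v => ∑ w, C v w ^ 2)
                  (fun _ _ => sum_nonneg fun _ _ => sq_nonneg _) (mem_univ v)
          rw [← hF0] at hsum
          have h2 : C v w ^ 2 ≤ 0 := by
            have := h1.trans hsum
            simpa using this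
          exact pow_eq_zero_iff (two_ne_zero) |>.1 (le_antisymm h2 (sq_nonneg _))
        rw [← hF0] at hx
        simp only [hQ, hC0, zero_mul, sum_const_zero, abs_zero, mul_zero, lt_self_iff_false] at hx
      simp only [hz, if_false, sum_const_zero]
      positivity
    · have hT : (0 : ℝ) < 10 * p * F := by positivity
      have h1 : (∑ x : V → Bool, if 10 * p * F < |Q x| then (1 : ℝ) else 0) *
          (10 * p * F) ^ (2 * p) ≤ ∑ x : V → Bool, Q x ^ (2 * p) := by
        rw [sum_mul]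
        refine sum_le_sum fun x _ => ?_
        split_ifs with hx
        · rw [one_mul, ← (even_two_mul p).pow_abs (Q x)]
          exact pow_le_pow_left₀ hT.le hx.le _
        · rw [zero_mul]
          exact (even_two_mul p).pow_nonneg _
      have h2 := h1.trans hmom
      have h3 : ((2 * (p : ℝ)) ^ 2 * (2 * F ^ 2)) ^ p = (8 / 100) ^ p * (10 * p * F) ^ (2 * p) := by
        rw [pow_mul, ← mul_pow]
        congr 1
        ring
      rw [h3] at h2
      have hT2 : (0 : ℝ) < (10 * p * F) ^ (2 * p) := by positivity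
      have h4 : (∑ x : V → Bool, if 10 * p * F < |Q x| then (1 : ℝ) else 0) ≤
          2 ^ Fintype.card V * (8 / 100) ^ p := by
        refine le_of_mul_le_mul_right ?_ hT2
        linarith
      refine h4.trans ?_
      rw [mul_comm]
      refine mul_le_mul_of_nonneg_right ?_ (by positivity)
      have h5 : Real.exp (-(2 * (p : ℝ))) = (Real.exp (-2)) ^ p := by
        rw [← Real.exp_nat_mul]; congr 1; ring
      rw [h5]
      refine pow_le_pow_left₀ (by norm_num) ?_ p
      rw [Real.exp_neg]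
      have h6 : Real.exp 2 ≤ 100 / 8 := by
        have h7 := Real.exp_one_lt_d9
        have h8 : Real.exp 2 = Real.exp 1 ^ 2 := by
          rw [← Real.exp_nat_mul]; norm_num
        rw [h8]
        have h9 : (0 : ℝ) < Real.exp 1 := Real.exp_pos 1
        nlinarith
      rw [show (8 / 100 : ℝ) = (100 / 8)⁻¹ by norm_num]
      exact inv_anti₀ (Real.exp_pos 2) h6
  exact hgoal

end Pool.Agent.Helper15.LP
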